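import Pool.Agent.Y202.U.Stm

/-!
# Project Y202/U, part L2: the two-point functions of the noisy voter model
-/

set_option autoImplicit false
set_option linter.unusedSectionVars false

namespace Pool.Agent.Y708.U

open Finset Pool.Agent.W788.NV Pool.Agent.Y202.U

/-- a function which is minimal at the right end point of an interval does not have a positive
derivative there -/
theorem left_min {f : ℝ → ℝ} {d t0 : ℝ} (h0 : 0 < t0) (hd : HasDerivAt f d t0)
    (hmin : ∀ t, 0 ≤ t → t ≤ t0 → f t0 ≤ f t) : d ≤ 0 := by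
  by_contra hcon
  push Not at hcon
  rw [hasDerivAt_iff_tendsto_slope] at hd
  have h1 : ∀ᶠ t in nhdsWithin t0 {t0}ᶜ, 0 < slope f t0 t := hd.eventually (lt_mem_nhds hcon)
  have h2 : ∀ᶠ t in nhdsWithin t0 (Set.Iio t0), 0 < slope f t0 t :=
    h1.filter_mono (nhdsWithin_mono _ fun t ht => ne_of_lt ht)
  have h3 : ∀ᶠ t in nhdsWithin t0 (Set.Iio t0), t ∈ Set.Ioo 0 t0 := Ioo_mem_nhdsLT h0
  obtain ⟨t, ht1, ht2⟩ := (h2.and h3).exists
  have h4 := hmin t ht2.1.le ht2.2.le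
  rw [slope_def_field] at ht1
  have h5 : (f t - f t0) / (t - t0) ≤ 0 :=
    div_nonpos_of_nonneg_of_nonpos (by linarith) (by linarith [ht2.2])
  linarith

/-- the maximum principle -/
theorem max_principle {ι : Type} [Fintype ι] (Q : ℝ → ι → ℝ) (D : ι → Prop) (c : ι → ι → ℝ)
    (lam : ℝ) (hc : ∀ i j, 0 ≤ c i j) (hs : ∀ i, ¬ D i → ∑ j, c i j < lam)
    (hcont : ∀ i, Continuous fun t => Q t i)
    (hD : ∀ i, D i → ∀ t, 0 ≤ t → 0 ≤ Q t i) (h0 : ∀ i, 0 ≤ Q 0 i)
    (hder : ∀ i, ¬ D i → ∀ t, HasDerivAt (fun t => Q t i) (-lam * Q t i + ∑ j, c i j * Q t j) t)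
    (t : ℝ) (ht : 0 ≤ t) (i : ι) : 0 ≤ Q t i := by
  by_contra hcon
  push Not at hcon
  have hmin : ∀ j, ∃ s ∈ Set.Icc 0 t, ∀ r ∈ Set.Icc 0 t, Q s j ≤ Q r j := by
    intro j
    obtain ⟨s, hs1, hs2⟩ := isCompact_Icc.exists_isMinOn (Set.nonempty_Icc.2 ht)
      (hcont j).continuousOn
    exact ⟨s, hs1, fun r hr => hs2 hr⟩
  choose s hs1 hs2 using hmin
  have : Nonempty ι := ⟨i⟩
  obtain ⟨i0, -, hi0⟩ := Finset.exists_min_image (Finset.univ : Finset ι) (fun j => Q (s j) j)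
    ⟨i, Finset.mem_univ i⟩
  have hneg : Q (s i0) i0 < 0 :=
    lt_of_le_of_lt ((hi0 i (Finset.mem_univ i)).trans (hs2 i t ⟨ht, le_rfl⟩)) hcon
  have hnD : ¬ D i0 := fun h => absurd (hD i0 h (s i0) (hs1 i0).1) (not_le.2 hneg)
  have hspos : 0 < s i0 := by
    rcases (hs1 i0).1.lt_or_eq with h | h
    · exact h
    · exfalso
      rw [← h] at hneg
      exact absurd (h0 i0) (not_le.2 hneg)
  have hd := left_min hspos (hder i0 hnD (s i0)) fun r hr0 hr1 =>
    hs2 i0 r ⟨hr0, hr1.trans (hs1 i0).2⟩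
  have h1 : (∑ j, c i0 j) * Q (s i0) i0 ≤ ∑ j, c i0 j * Q (s i0) j := by
    rw [Finset.sum_mul]
    refine Finset.sum_le_sum fun j _ => mul_le_mul_of_nonneg_left ?_ (hc i0 j)
    exact (hi0 j (Finset.mem_univ j)).trans (hs2 j (s i0) (hs1 i0))
  have h2 := hs i0 hnD
  nlinarith

section

variable {V : Type} [Fintype V] [DecidableEq V] (G : SimpleGraph V) (q : ℕ) (θ : ℝ)

/-- rate of copying -/
noncomputable def rr (v w : V) : ℝ := mrate G q θ (Sum.inr (v, w))

theorem rr_sum (v : V) (hv : 1 ≤ dg G v) : ∑ w, rr G q θ v w = 1 - θ :=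
  Pool.Agent.W371.NV.One.sum_ρ G q θ v hv

theorem rr_nonneg (hθ1 : θ ≤ 1) (v w : V) : 0 ≤ rr G q θ v w :=
  Pool.Agent.W371.NV.One.ρ_nonneg G q θ hθ1 v w

theorem dg_rr (hd : ∀ v, 1 ≤ dg G v) (v w : V) :
    (dg G v : ℝ) * rr G q θ v w = dg G w * rr G q θ w v := by
  classical
  have h0 : ∀ v, (dg G v : ℝ) ≠ 0 := by
    intro v
    have : (1 : ℝ) ≤ dg G v := by exact_mod_cast hd v
    linarith
  have e : ∀ v w, (dg G v : ℝ) * rr G q θ v w = if G.Adj v w then 1 - θ else 0 := by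
    intro v w
    have : rr G q θ v w = if G.Adj v w then (1 - θ) / (dg G v : ℝ) else 0 :=
      Pool.Agent.W371.NV.One.ρ_eq G q θ v w
    rw [this]
    split_ifs
    · rw [mul_div_cancel₀ _ (h0 v)]
    · rw [mul_zero]
  rw [e, e]
  simp only [G.adj_comm v w]

/-- the mean of the generator under a stationary law vanishes -/
theorem mean_gf {Δ : ℕ} (hS : SA G q θ Δ) {μ : (V → Fin q) → ℝ} (hμ : IsStat G q θ μ)
    (f : (V → Fin q) → ℝ) :
    mean μ (gf (mrate G q θ) (act (V := V) (q := q)) f) = 0 := by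
  have hl := (p_law V G q θ (by have := hS.q2; omega) hS.t0 hS.t1 hS.d1).2.2 μ hμ
  have h1 : HasDerivAt (fun t => mean μ (pt G q θ t f))
      (mean μ (pt G q θ 0 (gf (mrate G q θ) (act (V := V) (q := q)) f))) 0 := by
    unfold mean
    refine HasDerivAt.fun_sum fun x _ => ?_
    exact (p_mk.deriv _ _ (mrate G q θ) (act (V := V) (q := q)) f x 0).const_mul (μ x)
  have h2 : (fun t => mean μ (pt G q θ t f)) = fun _ => mean μ f := by
    funext t
    exact hl t f
  rw [h2] at h1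
  have h3 := h1.unique (hasDerivAt_const (0 : ℝ) (mean μ f))
  rwa [show pt G q θ 0 (gf (mrate G q θ) (act (V := V) (q := q)) f) =
    gf (mrate G q θ) (act (V := V) (q := q)) f from p_mk.zero _ _ _ _ _] at h3

theorem mean_const {S : Type} [Fintype S] {μ : S → ℝ} (h : ∑ x, μ x = 1) (c : ℝ) :
    mean μ (fun _ => c) = c := by
  unfold mean
  rw [← Finset.sum_mul, h, one_mul]

theorem mean_lin {S κ : Type} [Fintype S] [Fintype κ] (μ : S → ℝ) (c : κ → ℝ) (F : κ → S → ℝ) :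
    mean μ (fun x => ∑ k, c k * F k x) = ∑ k, c k * mean μ (F k) := by
  unfold mean
  simp only [Finset.mul_sum]
  rw [Finset.sum_comm]
  refine Finset.sum_congr rfl fun k _ => Finset.sum_congr rfl fun x _ => ?_
  ring

theorem hh_self (a : V) (x : V → Fin q) : hh a a x = 1 - 1 / (q : ℝ) := by
  unfold hh
  rw [if_pos rfl]

theorem hh_symm (a b : V) : hh (q := q) a b = hh b a := by
  funext x
  unfold hh
  simp only [eq_comm]

/-- the generator on the two point functions, as a linear combination -/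
theorem gf_hh (hG : S_GE) {Δ : ℕ} (hS : SA G q θ Δ) (a b : V) (hab : a ≠ b) :
    gf (mrate G q θ) (act (V := V) (q := q)) (hh a b) = fun x =>
      ∑ k : Unit ⊕ (V ⊕ V), (Sum.elim (fun _ => (-2 : ℝ))
        (Sum.elim (fun a' => rr G q θ a a') (fun b' => rr G q θ b b')) k) *
        (Sum.elim (fun _ => hh a b) (Sum.elim (fun a' => hh a' b) (fun b' => hh a b')) k :
          (V → Fin q) → ℝ) x := by
  funext x
  rw [(hG V G q θ Δ hS x).2 a b hab, Fintype.sum_sum_type, Fintype.sum_sum_type]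
  simp only [Sum.elim_inl, Sum.elim_inr, Finset.univ_unique, Finset.sum_singleton]
  unfold rr
  ring

theorem gf_et (hG : S_GE) {Δ : ℕ} (hS : SA G q θ Δ) (c : Fin q) (v : V) :
    gf (mrate G q θ) (act (V := V) (q := q)) (et c v) = fun x =>
      ∑ k : Unit ⊕ V, (Sum.elim (fun _ => (-1 : ℝ)) (fun w => rr G q θ v w) k) *
        (Sum.elim (fun _ => et c v) (fun w => et c w) k : (V → Fin q) → ℝ) x := by
  funext x
  rw [(hG V G q θ Δ hS x).1 c v, Fintype.sum_sum_type]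
  simp only [Sum.elim_inl, Sum.elim_inr, Finset.univ_unique, Finset.sum_singleton]
  unfold rr
  ring

/-- the equation for the stationary two point function -/
theorem K_eq (hG : S_GE) {Δ : ℕ} (hS : SA G q θ Δ) {μ : (V → Fin q) → ℝ}
    (hμ : IsStat G q θ μ) (a b : V) (hab : a ≠ b) :
    0 = -2 * mean μ (hh (q := q) a b) + ∑ a', rr G q θ a a' * mean μ (hh (q := q) a' b) +
      ∑ b', rr G q θ b b' * mean μ (hh (q := q) a b') := by
  have h := mean_gf G q θ hS hμ (hh a b)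
  rw [gf_hh G q θ hG hS a b hab, mean_lin, Fintype.sum_sum_type, Fintype.sum_sum_type] at h
  simp only [Sum.elim_inl, Sum.elim_inr, Finset.univ_unique, Finset.sum_singleton] at h
  linarith

theorem K_self {μ : (V → Fin q) → ℝ} (hμ : IsStat G q θ μ) (a : V) :
    mean μ (hh (q := q) a a) = 1 - 1 / (q : ℝ) := by
  have : (hh (q := q) a a : (V → Fin q) → ℝ) = fun _ => 1 - 1 / (q : ℝ) := by
    funext x
    exact hh_self q a x
  rw [this]
  exact mean_const hμ.2.1 _

theorem one_div_q (hq : 2 ≤ q) : 1 / (q : ℝ) ≤ 1 / 2 := by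
  have : (2 : ℝ) ≤ q := by exact_mod_cast hq
  exact one_div_le_one_div_of_le (by norm_num) this

theorem K_nonneg (hG : S_GE) {Δ : ℕ} (hS : SA G q θ Δ) {μ : (V → Fin q) → ℝ}
    (hμ : IsStat G q θ μ) (a b : V) : 0 ≤ mean μ (hh (q := q) a b) := by
  obtain ⟨p, -, hp⟩ := Finset.exists_min_image (Finset.univ : Finset (V × V))
    (fun p => mean μ (hh (q := q) p.1 p.2)) ⟨(a, b), Finset.mem_univ _⟩
  refine le_trans ?_ (hp (a, b) (Finset.mem_univ _))
  by_cases hab : p.1 = p.2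
  · rw [hab, K_self G q θ hμ]
    have := one_div_q q hS.q2
    linarith
  · have h := K_eq G q θ hG hS hμ p.1 p.2 hab
    set k0 := mean μ (hh (q := q) p.1 p.2) with hk0
    have h1 : (1 - θ) * k0 ≤ ∑ a', rr G q θ p.1 a' * mean μ (hh (q := q) a' p.2) := by
      rw [← rr_sum G q θ p.1 (hS.d1 _), Finset.sum_mul]
      refine Finset.sum_le_sum fun a' _ =>
        mul_le_mul_of_nonneg_left (hp (a', p.2) (Finset.mem_univ _)) (rr_nonneg G q θ hS.t1 _ _)
    have h2 : (1 - θ) * k0 ≤ ∑ b', rr G q θ p.2 b' * mean μ (hh (q := q) p.1 b') := by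
      rw [← rr_sum G q θ p.2 (hS.d1 _), Finset.sum_mul]
      refine Finset.sum_le_sum fun b' _ =>
        mul_le_mul_of_nonneg_left (hp (p.1, b') (Finset.mem_univ _)) (rr_nonneg G q θ hS.t1 _ _)
    have h3 := hS.t0
    by_contra hcon
    push Not at hcon
    nlinarith

theorem K_row (hG : S_GE) {Δ : ℕ} (hS : SA G q θ Δ) {μ : (V → Fin q) → ℝ}
    (hμ : IsStat G q θ μ) (a : V) :
    ∑ b, (dg G b : ℝ) * mean μ (hh (q := q) a b) ≤ Δ / θ := by
  obtain ⟨a0, -, ha0⟩ := Finset.exists_max_image (Finset.univ : Finset V)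
    (fun a => ∑ b, (dg G b : ℝ) * mean μ (hh (q := q) a b)) ⟨a, Finset.mem_univ _⟩
  refine (ha0 a (Finset.mem_univ _)).trans ?_
  set K : V → V → ℝ := fun a b => mean μ (hh (q := q) a b) with hK
  have hKn : ∀ a b, 0 ≤ K a b := K_nonneg G q θ hG hS hμ
  set k : V → ℝ := fun a => ∑ b, (dg G b : ℝ) * K a b with hk
  have hdn : ∀ b, (0 : ℝ) ≤ dg G b := fun b => Nat.cast_nonneg _
  -- the two sides
  have h1 : 2 * ∑ b ∈ univ.erase a0, (dg G b : ℝ) * K a0 b =
      ∑ b ∈ univ.erase a0, (dg G b : ℝ) * ∑ a', rr G q θ a0 a' * K a' b +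
      ∑ b ∈ univ.erase a0, (dg G b : ℝ) * ∑ b', rr G q θ b b' * K a0 b' := by
    rw [Finset.mul_sum, ← Finset.sum_add_distrib]
    refine Finset.sum_congr rfl fun b hb => ?_
    have hb' : a0 ≠ b := (Finset.ne_of_mem_erase hb).symm
    have h := K_eq G q θ hG hS hμ a0 b hb'
    have h' : 2 * K a0 b = ∑ a', rr G q θ a0 a' * K a' b + ∑ b', rr G q θ b b' * K a0 b' := by
      simp only [hK]
      linarith
    calc 2 * ((dg G b : ℝ) * K a0 b) = dg G b * (2 * K a0 b) := by ring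
      _ = _ := by rw [h']; ring
  have h2 : ∑ b ∈ univ.erase a0, (dg G b : ℝ) * ∑ a', rr G q θ a0 a' * K a' b ≤
      (1 - θ) * k a0 := by
    have h3 : ∑ b ∈ univ.erase a0, (dg G b : ℝ) * ∑ a', rr G q θ a0 a' * K a' b ≤
        ∑ b, (dg G b : ℝ) * ∑ a', rr G q θ a0 a' * K a' b := by
      refine Finset.sum_le_sum_of_subset_of_nonneg (Finset.erase_subset _ _) fun b _ _ => ?_
      exact mul_nonneg (hdn b) (Finset.sum_nonneg fun a' _ =>
        mul_nonneg (rr_nonneg G q θ hS.t1 _ _) (hKn _ _))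
    refine h3.trans ?_
    have h4 : ∑ b, (dg G b : ℝ) * ∑ a', rr G q θ a0 a' * K a' b =
        ∑ a', rr G q θ a0 a' * k a' := by
      simp only [hk, Finset.mul_sum]
      rw [Finset.sum_comm]
      refine Finset.sum_congr rfl fun a' _ => Finset.sum_congr rfl fun b _ => ?_
      ring
    rw [h4, ← rr_sum G q θ a0 (hS.d1 _), Finset.sum_mul]
    exact Finset.sum_le_sum fun a' _ =>
      mul_le_mul_of_nonneg_left (ha0 a' (Finset.mem_univ _)) (rr_nonneg G q θ hS.t1 _ _)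
  have h3 : ∑ b ∈ univ.erase a0, (dg G b : ℝ) * ∑ b', rr G q θ b b' * K a0 b' ≤
      (1 - θ) * k a0 := by
    have h3 : ∑ b ∈ univ.erase a0, (dg G b : ℝ) * ∑ b', rr G q θ b b' * K a0 b' ≤
        ∑ b, (dg G b : ℝ) * ∑ b', rr G q θ b b' * K a0 b' := by
      refine Finset.sum_le_sum_of_subset_of_nonneg (Finset.erase_subset _ _) fun b _ _ => ?_
      exact mul_nonneg (hdn b) (Finset.sum_nonneg fun a' _ =>
        mul_nonneg (rr_nonneg G q θ hS.t1 _ _) (hKn _ _))
    refine h3.trans (le_of_eq ?_)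
    simp only [hk, Finset.mul_sum]
    rw [Finset.sum_comm]
    refine Finset.sum_congr rfl fun b' _ => ?_
    calc ∑ b, (dg G b : ℝ) * (rr G q θ b b' * K a0 b') =
        ∑ b, (dg G b' * K a0 b') * rr G q θ b' b := by
          refine Finset.sum_congr rfl fun b _ => ?_
          have := dg_rr G q θ hS.d1 b b'
          calc (dg G b : ℝ) * (rr G q θ b b' * K a0 b') =
              (dg G b : ℝ) * rr G q θ b b' * K a0 b' := by ring
            _ = _ := by rw [this]; ring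
      _ = _ := by
          rw [← Finset.mul_sum, rr_sum G q θ b' (hS.d1 _)]
          ring
  have h4 : ∑ b ∈ univ.erase a0, (dg G b : ℝ) * K a0 b = k a0 - dg G a0 * (1 - 1 / (q : ℝ)) := by
    simp only [hk]
    rw [← Finset.add_sum_erase _ _ (Finset.mem_univ a0)]
    have : K a0 a0 = 1 - 1 / (q : ℝ) := K_self G q θ hμ a0
    rw [this]
    ring
  have h5 : (dg G a0 : ℝ) * (1 - 1 / (q : ℝ)) ≤ Δ := by
    have hq0 : (0 : ℝ) ≤ 1 / (q : ℝ) := by positivity
    have : (dg G a0 : ℝ) ≤ Δ := by exact_mod_cast hS.dD a0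
    have h1q : 1 - 1 / (q : ℝ) ≤ 1 := by linarith
    calc (dg G a0 : ℝ) * (1 - 1 / (q : ℝ)) ≤ dg G a0 * 1 :=
          mul_le_mul_of_nonneg_left h1q (hdn _)
      _ ≤ Δ := by rw [mul_one]; exact this
  show k a0 ≤ Δ / θ
  rw [le_div_iff₀ hS.t0]
  nlinarith

theorem pt_hh_deriv (hG : S_GE) {Δ : ℕ} (hS : SA G q θ Δ) (x0 : V → Fin q) (a b : V)
    (hab : a ≠ b) (t : ℝ) :
    HasDerivAt (fun t => pt G q θ t (hh a b) x0)
      (-2 * pt G q θ t (hh a b) x0 + ∑ a', rr G q θ a a' * pt G q θ t (hh a' b) x0 +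
        ∑ b', rr G q θ b b' * pt G q θ t (hh a b') x0) t := by
  have h := p_mk.deriv _ _ (mrate G q θ) (act (V := V) (q := q)) (hh a b) x0 t
  rw [gf_hh G q θ hG hS a b hab, p_mk.lin, Fintype.sum_sum_type, Fintype.sum_sum_type] at h
  simp only [Sum.elim_inl, Sum.elim_inr, Finset.univ_unique, Finset.sum_singleton] at h
  refine h.congr_deriv ?_
  unfold pt
  ring

theorem bi_deriv (hG : S_GE) {Δ : ℕ} (hS : SA G q θ Δ) (x0 : V → Fin q) (c : Fin q) (v : V)
    (t : ℝ) :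
    HasDerivAt (fun t => bi G q θ x0 t c v)
      (-bi G q θ x0 t c v + ∑ w, rr G q θ v w * bi G q θ x0 t c w) t := by
  have h := p_mk.deriv _ _ (mrate G q θ) (act (V := V) (q := q)) (et c v) x0 t
  rw [gf_et G q θ hG hS c v, p_mk.lin, Fintype.sum_sum_type] at h
  simp only [Sum.elim_inl, Sum.elim_inr, Finset.univ_unique, Finset.sum_singleton] at h
  refine h.congr_deriv ?_
  unfold bi pt
  ring

/-- the sum of the products of the centred indicators -/
theorem sum_et (hq : 2 ≤ q) (a b : V) (x : V → Fin q) :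
    ∑ c : Fin q, et c a x * et c b x = hh a b x := by
  have hq0 : (q : ℝ) ≠ 0 := by
    have : (2 : ℝ) ≤ q := by exact_mod_cast hq
    linarith
  unfold et hh
  have e : ∀ c : Fin q, ((if x a = c then (1 : ℝ) else 0) - 1 / (q : ℝ)) *
      ((if x b = c then 1 else 0) - 1 / (q : ℝ)) =
      (if x a = c then (if x b = c then 1 else 0) else 0) -
        (if x a = c then 1 / (q : ℝ) else 0) - (if x b = c then 1 / (q : ℝ) else 0) +
        1 / (q : ℝ) * (1 / (q : ℝ)) := by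
    intro c
    split_ifs <;> ring
  simp only [e, Finset.sum_add_distrib, Finset.sum_sub_distrib, Finset.sum_ite_eq,
    Finset.mem_univ, if_true, Finset.sum_const, Finset.card_univ, Fintype.card_fin, nsmul_eq_mul]
  have e2 : (q : ℝ) * (1 / (q : ℝ) * (1 / (q : ℝ))) = 1 / (q : ℝ) := by
    field_simp
  rw [e2]
  have e3 : (if x b = x a then (1 : ℝ) else 0) = if x a = x b then 1 else 0 := by
    simp only [eq_comm]
  rw [e3]
  ring

/-- the difference in the third item -/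
noncomputable def QQ (μ : (V → Fin q) → ℝ) (x0 : V → Fin q) (t : ℝ) (p : V × V) : ℝ :=
  mean μ (hh (q := q) p.1 p.2) - pt G q θ t (hh p.1 p.2) x0 +
    ∑ c, bi G q θ x0 t c p.1 * bi G q θ x0 t c p.2

/-- the coefficients -/
noncomputable def cc (p p' : V × V) : ℝ :=
  (if p'.2 = p.2 then rr G q θ p.1 p'.1 else 0) + (if p'.1 = p.1 then rr G q θ p.2 p'.2 else 0)

theorem cc_sum (p : V × V) (f : V × V → ℝ) :
    ∑ p', cc G q θ p p' * f p' =
      ∑ a', rr G q θ p.1 a' * f (a', p.2) + ∑ b', rr G q θ p.2 b' * f (p.1, b') := by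
  unfold cc
  simp only [add_mul, Finset.sum_add_distrib, ite_mul, zero_mul]
  rw [Fintype.sum_prod_type, Fintype.sum_prod_type]
  simp only [Finset.sum_ite_eq', Finset.mem_univ, if_true]
  congr 1
  rw [Finset.sum_comm]
  simp only [Finset.sum_ite_eq', Finset.mem_univ, if_true]

theorem QQ_deriv (hG : S_GE) {Δ : ℕ} (hS : SA G q θ Δ) {μ : (V → Fin q) → ℝ}
    (hμ : IsStat G q θ μ) (x0 : V → Fin q) (p : V × V) (hp : p.1 ≠ p.2) (t : ℝ) :
    HasDerivAt (fun t => QQ G q θ μ x0 t p)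
      (-2 * QQ G q θ μ x0 t p + ∑ p', cc G q θ p p' * QQ G q θ μ x0 t p') t := by
  have h1 := pt_hh_deriv G q θ hG hS x0 p.1 p.2 hp t
  have h2 : HasDerivAt (fun t => ∑ c, bi G q θ x0 t c p.1 * bi G q θ x0 t c p.2)
      (∑ c, ((-bi G q θ x0 t c p.1 + ∑ w, rr G q θ p.1 w * bi G q θ x0 t c w) *
        bi G q θ x0 t c p.2 + bi G q θ x0 t c p.1 *
        (-bi G q θ x0 t c p.2 + ∑ w, rr G q θ p.2 w * bi G q θ x0 t c w))) t :=
    HasDerivAt.fun_sum fun c _ =>
      (bi_deriv G q θ hG hS x0 c p.1 t).mul (bi_deriv G q θ hG hS x0 c p.2 t)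
  have h3 := (h1.const_sub (mean μ (hh (q := q) p.1 p.2))).add h2
  refine h3.congr_deriv ?_
  rw [cc_sum]
  have hK := K_eq G q θ hG hS hμ p.1 p.2 hp
  have e1 : ∑ c, ((-bi G q θ x0 t c p.1 + ∑ w, rr G q θ p.1 w * bi G q θ x0 t c w) *
        bi G q θ x0 t c p.2 + bi G q θ x0 t c p.1 *
        (-bi G q θ x0 t c p.2 + ∑ w, rr G q θ p.2 w * bi G q θ x0 t c w)) =
      -2 * ∑ c, bi G q θ x0 t c p.1 * bi G q θ x0 t c p.2 +
      ∑ a', rr G q θ p.1 a' * ∑ c, bi G q θ x0 t c a' * bi G q θ x0 t c p.2 +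
      ∑ b', rr G q θ p.2 b' * ∑ c, bi G q θ x0 t c p.1 * bi G q θ x0 t c b' := by
    have e2 : ∑ a', rr G q θ p.1 a' * ∑ c, bi G q θ x0 t c a' * bi G q θ x0 t c p.2 =
        ∑ c, (∑ w, rr G q θ p.1 w * bi G q θ x0 t c w) * bi G q θ x0 t c p.2 := by
      simp only [Finset.mul_sum, Finset.sum_mul]
      rw [Finset.sum_comm]
      refine Finset.sum_congr rfl fun c _ => Finset.sum_congr rfl fun w _ => ?_
      ring
    have e3 : ∑ b', rr G q θ p.2 b' * ∑ c, bi G q θ x0 t c p.1 * bi G q θ x0 t c b' =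
        ∑ c, bi G q θ x0 t c p.1 * ∑ w, rr G q θ p.2 w * bi G q θ x0 t c w := by
      simp only [Finset.mul_sum]
      rw [Finset.sum_comm]
      refine Finset.sum_congr rfl fun c _ => Finset.sum_congr rfl fun w _ => ?_
      ring
    rw [e2, e3, Finset.mul_sum, ← Finset.sum_add_distrib, ← Finset.sum_add_distrib]
    refine Finset.sum_congr rfl fun c _ => ?_
    ring
  rw [e1]
  unfold QQ
  simp only [mul_add, mul_sub, Finset.sum_add_distrib, Finset.sum_sub_distrib]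
  linarith

theorem QQ_cont (μ : (V → Fin q) → ℝ) (x0 : V → Fin q) (p : V × V) :
    Continuous fun t => QQ G q θ μ x0 t p := by
  have h : ∀ f : (V → Fin q) → ℝ, Continuous fun t => pt G q θ t f x0 := by
    intro f
    exact continuous_iff_continuousAt.2 fun t =>
      (p_mk.deriv _ _ (mrate G q θ) (act (V := V) (q := q)) f x0 t).continuousAt
  unfold QQ
  refine (continuous_const.sub (h _)).add ?_
  exact continuous_finsetSum _ fun c _ => (h _).mul (h _)

theorem QQ_nonneg (hG : S_GE) {Δ : ℕ} (hS : SA G q θ Δ) {μ : (V → Fin q) → ℝ}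
    (hμ : IsStat G q θ μ) (x0 : V → Fin q) (t : ℝ) (ht : 0 ≤ t) (p : V × V) :
    0 ≤ QQ G q θ μ x0 t p := by
  refine max_principle (fun t p => QQ G q θ μ x0 t p) (fun p => p.1 = p.2) (cc G q θ) 2
    ?_ ?_ (QQ_cont G q θ μ x0) ?_ ?_ ?_ t ht p
  · intro p p'
    unfold cc
    refine add_nonneg ?_ ?_ <;> split_ifs
    · exact rr_nonneg G q θ hS.t1 _ _
    · exact le_rfl
    · exact rr_nonneg G q θ hS.t1 _ _
    · exact le_rfl
  · intro p _
    have h := cc_sum G q θ p (fun _ => 1)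
    simp only [mul_one] at h
    rw [h, rr_sum G q θ _ (hS.d1 _), rr_sum G q θ _ (hS.d1 _)]
    have := hS.t0
    linarith
  · rintro ⟨a, b⟩ hab t _
    have hab' : a = b := hab
    subst hab'
    have e1 : pt G q θ t (hh a a) x0 = 1 - 1 / (q : ℝ) := by
      have : (hh (q := q) a a : (V → Fin q) → ℝ) = fun _ => 1 - 1 / (q : ℝ) := by
        funext x
        exact hh_self q a x
      rw [this]
      exact p_mk.cst _ _ _ _ _ _ _
    show 0 ≤ QQ G q θ μ x0 t (a, a)
    unfold QQ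
    simp only
    rw [K_self G q θ hμ, e1, sub_self, zero_add]
    exact Finset.sum_nonneg fun c _ => mul_self_nonneg _
  · rintro ⟨a, b⟩
    show 0 ≤ QQ G q θ μ x0 0 (a, b)
    unfold QQ bi
    simp only
    have e : ∀ f : (V → Fin q) → ℝ, pt G q θ 0 f x0 = f x0 := by
      intro f
      exact congrFun (p_mk.zero _ _ (mrate G q θ) (act (V := V) (q := q)) f) x0
    simp only [e]
    rw [sum_et q hS.q2 a b x0]
    have := K_nonneg G q θ hG hS hμ a b
    linarith
  · intro p hp t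
    exact QQ_deriv G q θ hG hS hμ x0 p hp t

end

/-- L2 -/
theorem l2 (hG : S_GE) : S_L2 := by
  intro V _ _ G q θ Δ hS μ hμ
  refine ⟨K_nonneg G q θ hG hS hμ, ?_, ?_⟩
  · intro a
    have h1 : ∑ b, mean μ (hh (q := q) a b) ≤ ∑ b, (dg G b : ℝ) * mean μ (hh (q := q) a b) := by
      refine Finset.sum_le_sum fun b _ => ?_
      have hd : (1 : ℝ) ≤ dg G b := by exact_mod_cast hS.d1 b
      have := K_nonneg G q θ hG hS hμ a b
      nlinarith
    refine h1.trans ((K_row G q θ hG hS hμ a).trans ?_)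
    have hD : (1 : ℝ) ≤ Δ := by exact_mod_cast hS.D1
    have h0 := hS.t0
    rw [div_le_div_iff_of_pos_right h0]
    nlinarith
  · intro x0 t ht a b
    have h := QQ_nonneg G q θ hG hS hμ x0 t ht (a, b)
    unfold QQ at h
    simp only at h
    linarith

end Pool.Agent.Y708.U
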